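import Pool.Agent.Q207.HT.Stm

/-!
# Project HT (helper207), HT1: the first fundamental theorem for the Lie algebra (helper149)

Most of this file follows the group version in the files of Pool.Agent.Q207.DB.
-/

set_option autoImplicit false

open Finset

namespace Q149.HT

open Q207.DB Q207.HT Pool.Agent.H204R3.SP Pool.Agent.Q59.GC

variable {I : Type} {Λ : Labels I} [DecidableEq I] {ε : Letter Λ → ℂ} [Fintype I]

lemma kl_diag {κ : Type} [Fintype κ] [DecidableEq κ] {x : (κ → Letter Λ) → ℂ}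
    (hx : ∀ X, InLD ε X → lieA X x = 0) {w : κ → Letter Λ} (hw : x w ≠ 0) (a : Letter Λ → ℤ)
    (h1 : ∀ y, a y + a (dual y) = 0)
    (h2 : ∀ i : I, (Λ.star i ≠ i ∨ Λ.orth i = true) → ∑ j, a ⟨i, j⟩ = 0) :
    ∑ k, a (w k) = 0 := by
  classical
  have h3 : InLD ε (Matrix.diagonal fun y => (a y : ℂ)) := by
    refine ⟨fun x y hxy => Matrix.diagonal_apply_ne _ fun h => hxy (by rw [h]), ?_,
      fun i hi => ?_⟩
    · ext x y
      rw [Matrix.add_apply, Matrix.diagonal_transpose, Matrix.mul_diagonal, Matrix.diagonal_mul,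
        Matrix.zero_apply]
      simp only [form, Matrix.of_apply]
      by_cases h : y = dual x
      · rw [if_pos h, h]
        have h4 : (a x : ℂ) + a (dual x) = 0 := by exact_mod_cast h1 x
        linear_combination ε x * h4
      · rw [if_neg h]; ring
    · simp only [Matrix.diagonal_apply_eq]
      exact_mod_cast h2 i hi
  have h4 := congrFun (hx _ h3) w
  rw [lieA_apply] at h4
  have h5 : ∀ l, ∑ y, (Matrix.diagonal (fun y => (a y : ℂ)) : Matrix (Letter Λ) (Letter Λ) ℂ)
      (w l) y * x (Function.update w l y) = a (w l) * x w := by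
    intro l
    rw [sum_eq_single (w l)]
    · rw [Matrix.diagonal_apply_eq, Function.update_eq_self]
    · intro y _ hy
      rw [Matrix.diagonal_apply_ne _ (Ne.symm hy), zero_mul]
    · intro h
      exact absurd (mem_univ _) h
  rw [sum_congr rfl fun l _ => h5 l, ← sum_mul] at h4
  have h6 : (∑ k, (a (w k) : ℂ)) = 0 := (mul_eq_zero.1 h4).resolve_right hw
  exact_mod_cast h6

/-- in every class all differences are equal -/
lemma net_eqL {κ : Type} [Fintype κ]
    [DecidableEq κ] {x : (κ → Letter Λ) → ℂ}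
    (hx : ∀ X, InLD ε X → lieA X x = 0) {w : κ → Letter Λ} (hw : x w ≠ 0) (i : I)
    (a b : Fin (Λ.dim i)) : net w ⟨i, a⟩ = net w ⟨i, b⟩ := by
  by_cases ho : Λ.orth i = true
  · rw [net_orth w (x := ⟨i, a⟩) ho, net_orth w (x := ⟨i, b⟩) ho]
  by_cases hi : Λ.star i = i
  · have key : ∀ y : Letter Λ, y.1 = i → net w y = 0 := by
      intro y hy
      rw [← sum_single w y]
      refine kl_diag hx hw (fun z => (if z = y then (1 : ℤ) else 0) -
        (if z = dual y then 1 else 0)) (fun z => ?_) (fun ν hν => ?_)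
      · simp only [dual_eq_iff, dual_dual]
        ring
      · have hνi : ν ≠ i := by
          rintro rfl
          rcases hν with h | h
          · exact h hi
          · exact ho h
        refine sum_eq_zero fun k _ => ?_
        rw [if_neg, if_neg]
        · ring
        · intro h
          apply hνi
          have h1 : ν = (dual y).1 := congrArg Sigma.fst h
          rw [h1, dual_fst, hy, hi]
        · intro h
          apply hνi
          have h1 : ν = y.1 := congrArg Sigma.fst h
          rw [h1, hy]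
    rw [key _ rfl, key _ rfl]
  · have h0 := kl_diag hx hw (fun z =>
      ((if z = ⟨i, a⟩ then (1 : ℤ) else 0) - (if z = dual ⟨i, a⟩ then 1 else 0)) -
      ((if z = ⟨i, b⟩ then (1 : ℤ) else 0) - (if z = dual ⟨i, b⟩ then 1 else 0))) (fun z => ?_)
      (fun ν hν => ?_)
    · rw [sum_sub_distrib, sum_single, sum_single] at h0
      linarith
    · simp only [dual_eq_iff, dual_dual]
      ring
    · by_cases h1 : ν = i
      · subst h1
        have e2 : ∀ k c, (⟨ν, k⟩ : Letter Λ) ≠ dual ⟨ν, c⟩ := by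
          intro k c h
          have h2 : ν = (dual (⟨ν, c⟩ : Letter Λ)).1 := congrArg Sigma.fst h
          rw [dual_fst] at h2
          exact hi h2.symm
        simp only [mk_eq_iff, if_neg (e2 _ _), sub_zero]
        rw [sum_sub_distrib, sum_ite_eq' univ a, sum_ite_eq' univ b, if_pos (mem_univ _),
          if_pos (mem_univ _), sub_self]
      by_cases h2 : ν = Λ.star i
      · have e2 : ∀ k c, (⟨ν, k⟩ : Letter Λ) ≠ ⟨i, c⟩ := fun k c h => h1 (congrArg Sigma.fst h)
        have e3 : ∀ c, ∃ c' : Fin (Λ.dim ν), dual ⟨i, c⟩ = (⟨ν, c'⟩ : Letter Λ) := by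
          intro c
          exact exists_mk _ (by rw [dual_fst, h2])
        obtain ⟨a', ha'⟩ := e3 a
        obtain ⟨b', hb'⟩ := e3 b
        simp only [if_neg (e2 _ _), ha', hb', mk_eq_iff, zero_sub]
        rw [sum_sub_distrib, sum_neg_distrib, sum_neg_distrib, sum_ite_eq' univ a',
          sum_ite_eq' univ b', if_pos (mem_univ _), if_pos (mem_univ _), sub_self]
      · refine sum_eq_zero fun k _ => ?_
        have e2 : ∀ c, (⟨ν, k⟩ : Letter Λ) ≠ ⟨i, c⟩ := fun c h => h1 (congrArg Sigma.fst h)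
        have e3 : ∀ c, (⟨ν, k⟩ : Letter Λ) ≠ dual ⟨i, c⟩ := by
          intro c h
          apply h2
          have h3 : ν = (dual (⟨i, c⟩ : Letter Λ)).1 := congrArg Sigma.fst h
          rw [h3, dual_fst]
        rw [if_neg (e2 a), if_neg (e2 b), if_neg (e3 a), if_neg (e3 b)]
        ring

/-! ## The orthogonal letters -/

/-- the derivative of the action -/
lemma act_hd {κ : Type} [Fintype κ] [DecidableEq κ] {x : (κ → Letter Λ) → ℂ}
    {X : Matrix (Letter Λ) (Letter Λ) ℂ} {g : ℂ → Matrix (Letter Λ) (Letter Λ) ℂ} (g0 : g 0 = 1)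
    (hg : ∀ y z, HasDerivAt (fun t => g t y z) (X y z) 0)
    (w : κ → Letter Λ) : HasDerivAt (fun t : ℂ => act (g t) x w)
      (∑ k, ∑ y, X (w k) y * x (Function.update w k y)) 0 := by
  have h2 : HasDerivAt (fun t : ℂ => ∑ J : κ → Letter Λ, (∏ k, g t (w k) (J k)) * x J)
      (∑ J : κ → Letter Λ, (∑ k, (∏ l ∈ univ.erase k, g 0 (w l) (J l)) •
          X (w k) (J k)) * x J) 0 := by
    refine HasDerivAt.fun_sum fun J _ => ?_
    refine HasDerivAt.mul_const ?_ _
    exact HasDerivAt.fun_finsetProd fun k _ => hg (w k) (J k)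
  refine h2.congr_deriv ?_
  symm
  rw [g0]
  have h5 : ∀ J : κ → Letter Λ, (∑ k, (∏ l ∈ univ.erase k,
        ((1 : Matrix (Letter Λ) (Letter Λ) ℂ) (w l) (J l))) •
          X (w k) (J k)) * x J = ∑ k, (if ∀ l, l ≠ k → w l = J l then X (w k) (J k) * x J else 0) := by
    intro J
    rw [sum_mul]
    refine sum_congr rfl fun k _ => ?_
    by_cases h6 : ∀ l, l ≠ k → w l = J l
    · rw [if_pos h6, prod_eq_one, one_smul]
      intro l hl
      rw [h6 l (ne_of_mem_erase hl), Matrix.one_apply_eq]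
    · rw [if_neg h6]
      push Not at h6
      obtain ⟨l, hl, hIJ⟩ := h6
      have h8 : ∏ l ∈ univ.erase k, ((1 : Matrix (Letter Λ) (Letter Λ) ℂ) (w l) (J l)) = 0 :=
        prod_eq_zero (i := l) (mem_erase.mpr ⟨hl, mem_univ l⟩) (Matrix.one_apply_ne hIJ)
      rw [h8, zero_smul, zero_mul]
  rw [sum_congr (rfl : (univ : Finset (κ → Letter Λ)) = univ) fun J _ => h5 J]
  symm
  rw [sum_comm]
  symm
  refine sum_congr rfl fun k _ => ?_
  have h6 : ∑ J : κ → Letter Λ, (if ∀ l, l ≠ k → w l = J l then X (w k) (J k) * x J else 0) =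
      ∑ J ∈ univ.filter (fun J : κ → Letter Λ => ∀ l, l ≠ k → w l = J l),
        X (w k) (J k) * x J := (sum_filter _ _).symm
  rw [h6]
  refine sum_bij (fun y _ => Function.update w k y) ?_ ?_ ?_ ?_
  · intro y _
    rw [mem_filter]
    refine ⟨mem_univ _, fun l hl => ?_⟩
    rw [Function.update_of_ne hl]
  · intro y _ z _ hyz
    have := congrFun hyz k
    rwa [Function.update_self, Function.update_self] at this
  · intro J hJ
    rw [mem_filter] at hJ
    refine ⟨J k, mem_univ _, ?_⟩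
    funext l
    by_cases hl : l = k
    · subst hl; rw [Function.update_self]
    · rw [Function.update_of_ne hl, hJ.2 l hl]
  · intro y _
    rw [Function.update_self]

lemma act_rot {κ : Type} [Fintype κ] [DecidableEq κ] {x : (κ → Letter Λ) → ℂ}
    (hε0 : ∀ x, ε x ≠ 0) {b c : Letter Λ} {w : ℂ} (hbc : b ≠ c) (hw : w * w = ε b * ε c)
    (hk : lieA (kk b c w ε) x = 0) (t : ℂ) : act (rot b c w ε t) x = x := by
  funext v
  have g0 : rot b c w ε 0 = 1 := by
    unfold rot
    rw [Complex.cos_zero, Complex.sin_zero, sub_self, zero_smul, zero_smul, add_zero, add_zero]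
  have hg : ∀ y z, HasDerivAt (fun t => rot b c w ε t y z) (kk b c w ε y z) 0 := by
    intro y z
    have e1 : HasDerivAt (fun t : ℂ => (1 : Matrix (Letter Λ) (Letter Λ) ℂ) y z +
        (Complex.cos t - 1) * pr b c y z + Complex.sin t * kk b c w ε y z)
        (0 + (-Complex.sin 0) * pr b c y z + Complex.cos 0 * kk b c w ε y z) 0 := by
      refine HasDerivAt.add (HasDerivAt.add (hasDerivAt_const _ _) ?_) ?_
      · exact ((Complex.hasDerivAt_cos 0).sub_const 1).mul_const _
      · exact (Complex.hasDerivAt_sin 0).mul_const _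
    rw [Complex.sin_zero, Complex.cos_zero, neg_zero, zero_mul, one_mul, zero_add, zero_add] at e1
    exact e1
  have h1 : ∀ u : κ → Letter Λ, HasDerivAt (fun s : ℂ => act (rot b c w ε s) x u) 0 0 := by
    intro u
    have h2 := act_hd (x := x) g0 hg u
    have h3 := congrFun hk u
    rw [lieA_apply] at h3
    rw [h3] at h2
    exact h2
  have h2 : ∀ t0 : ℂ, HasDerivAt (fun t : ℂ => act (rot b c w ε t) x v) 0 t0 := by
    intro t0
    have h3 : ∀ s : ℂ, act (rot b c w ε (t0 + s)) x v = ∑ u : κ → Letter Λ,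
        (∏ k, rot b c w ε t0 (v k) (u k)) * act (rot b c w ε s) x u := by
      intro s
      have h4 := congrFun (actM_comp (κ := κ) (fun _ => rot b c w ε t0)
        (fun _ => rot b c w ε s) x) v
      rw [← rot_add hbc hε0 hw] at h4
      exact h4.symm
    have h4 : HasDerivAt (fun s : ℂ => act (rot b c w ε (t0 + s)) x v) 0 0 := by
      simp only [h3]
      have h5 := HasDerivAt.fun_sum (u := (univ : Finset (κ → Letter Λ)))
        (A := fun u s => (∏ k, rot b c w ε t0 (v k) (u k)) * act (rot b c w ε s) x u)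
        (A' := fun u => (∏ k, rot b c w ε t0 (v k) (u k)) * 0) (x := (0 : ℂ))
        (fun u _ => (h1 u).const_mul _)
      simpa using h5
    have h5 : HasDerivAt (fun s : ℂ => act (rot b c w ε (t0 + s)) x v) 0 (t0 - t0) := by
      rw [sub_self]
      exact h4
    have h6 := HasDerivAt.comp_sub_const t0 t0 h5
    simpa using h6
  have h3 : ∀ t, act (rot b c w ε t) x v = act (rot b c w ε 0) x v := by
    intro t
    exact is_const_of_deriv_eq_zero (f := fun t : ℂ => act (rot b c w ε t) x v)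
      (fun t => (h2 t).differentiableAt) (fun t => (h2 t).deriv) t 0
  rw [h3, g0]
  exact congrFun (actM_one x) v

/-- the generator of the rotations is in the Lie algebra -/
lemma inL_kk (hε0 : ∀ x, ε x ≠ 0) {b c : Letter Λ} {w : ℂ} (hbc : b ≠ c) (hb : Λ.orth b.1 = true)
    (hc : Λ.orth c.1 = true) (h1 : b.1 = c.1) : InLD ε (kk b c w ε) := by
  refine ⟨fun x y hxy => ?_, kk_form hbc hε0 hb hc, fun i _ => sum_eq_zero fun a _ => ?_⟩
  · unfold kk
    rw [Matrix.of_apply, if_neg, if_neg]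
    · rintro ⟨rfl, rfl⟩
      exact hxy h1.symm
    · rintro ⟨rfl, rfl⟩
      exact hxy h1
  · unfold kk
    rw [Matrix.of_apply, if_neg, if_neg]
    · rintro ⟨h2, h3⟩
      exact hbc (by rw [← h2, ← h3])
    · rintro ⟨h2, h3⟩
      exact hbc (by rw [← h2, ← h3])

/-- in an orthogonal class all letters occur with the same parity -/
lemma parity_eqL (hε0 : ∀ x, ε x ≠ 0) {κ : Type} [Fintype κ]
    [DecidableEq κ] {x : (κ → Letter Λ) → ℂ}
    (hx : ∀ X, InLD ε X → lieA X x = 0) {w : κ → Letter Λ} (hw : x w ≠ 0) {i : I}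
    (hi : Λ.orth i = true)
    (a b : Fin (Λ.dim i)) : occ w ⟨i, a⟩ % 2 = occ w ⟨i, b⟩ % 2 := by
  classical
  by_cases hab : a = b
  · rw [hab]
  have hab' : (⟨i, a⟩ : Letter Λ) ≠ ⟨i, b⟩ := fun h => hab (mk_eq_iff.mp h)
  set d : Letter Λ → ℂ := fun y => if y = ⟨i, a⟩ ∨ y = ⟨i, b⟩ then -1 else 1 with hd
  obtain ⟨r, hr⟩ := IsAlgClosed.exists_pow_nat_eq (ε ⟨i, a⟩ * ε ⟨i, b⟩) (n := 2) (by norm_num)
  rw [pow_two] at hr
  have h3 : rot ⟨i, a⟩ ⟨i, b⟩ r ε (Real.pi : ℂ) = Matrix.diagonal d := by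
    unfold rot
    rw [Complex.cos_pi, Complex.sin_pi, zero_smul, add_zero]
    ext y z
    unfold pr
    rw [Matrix.add_apply, Matrix.smul_apply]
    by_cases hyz : y = z
    · subst hyz
      rw [Matrix.one_apply_eq, Matrix.diagonal_apply_eq, Matrix.diagonal_apply_eq, hd]
      simp only []
      split_ifs
      · rw [smul_eq_mul]; ring
      · rw [smul_eq_mul]; ring
    · rw [Matrix.one_apply_ne hyz, Matrix.diagonal_apply_ne _ hyz, Matrix.diagonal_apply_ne _ hyz,
        smul_zero, add_zero]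
  have h4 := congrFun (act_rot hε0 hab' hr (hx _ (inL_kk (w := r) hε0 hab' hi hi rfl))
    (Real.pi : ℂ)) w
  rw [h3] at h4
  rw [act_diagonal] at h4
  have h5 : ∏ k, d (w k) = 1 := mul_right_cancel₀ hw (by rw [h4, one_mul])
  have h6 : ∀ k, d (w k) = (if w k = ⟨i, a⟩ then (-1 : ℂ) else 1) *
      (if w k = ⟨i, b⟩ then (-1 : ℂ) else 1) := by
    intro k
    change (if w k = ⟨i, a⟩ ∨ w k = ⟨i, b⟩ then (-1 : ℂ) else 1) = _
    by_cases h1 : w k = ⟨i, a⟩
    · rw [if_pos (Or.inl h1), if_pos h1, if_neg fun h => hab' (by rw [← h1, h])]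
      ring
    · by_cases h2 : w k = ⟨i, b⟩
      · rw [if_pos (Or.inr h2), if_neg h1, if_pos h2]
        ring
      · rw [if_neg fun h => h.elim h1 h2, if_neg h1, if_neg h2]
        ring
  have h7 : ∀ z : Letter Λ, ∏ k, (if w k = z then (-1 : ℂ) else 1) = (-1) ^ occ w z := by
    intro z
    rw [prod_ite, prod_const_one, mul_one, prod_const]
    rfl
  rw [prod_congr rfl fun k _ => h6 k, prod_mul_distrib, h7, h7, ← pow_add] at h5
  have h8 : Even (occ w ⟨i, a⟩ + occ w ⟨i, b⟩) := by
    by_contra h9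
    rw [Nat.not_even_iff_odd] at h9
    rw [h9.neg_one_pow] at h5
    norm_num at h5
  rw [Nat.even_iff] at h8
  omega

/-! ## The relations -/

/-- the roots are in the Lie algebra -/
lemma inL_rt (hε : ∀ x : Letter Λ, ¬ Λ.orth x.1 = true → ε (dual x) = -ε x)
    {b c : Letter Λ} (hb0 : ¬ Λ.orth b.1 = true)
    (hbc : (dual b).1 = c.1) (hne : c ≠ dual b) : InLD ε (rt ε b c) := by
  have hc0 : ¬ Λ.orth c.1 = true := by
    rw [← hbc, orth_dual]
    exact hb0
  have hcb : (dual c).1 = b.1 := by rw [dual_fst, ← hbc, dual_fst, Λ.star_star]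
  have hfbc : form ε b c = 0 := by
    simp only [form, Matrix.of_apply]; rw [if_neg hne]
  have hfcb : form ε c b = 0 := by rw [form_anti hε hc0, hfbc, neg_zero]
  refine ⟨fun x y hxy => ?_, ?_, fun i _ => ?_⟩
  · simp only [rt, Matrix.of_apply, form]
    by_cases h2 : x = dual b
    · have h3 : y ≠ c := fun h3 => hxy (by rw [h2, h3, hbc])
      by_cases h4 : x = dual c
      · have h5 : y ≠ b := fun h5 => hxy (by rw [h4, h5, hcb])
        rw [if_neg h3, if_neg h5]; ring
      · rw [if_neg h3, if_neg h4]; ring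
    · rw [if_neg h2]
      by_cases h4 : x = dual c
      · have h5 : y ≠ b := fun h5 => hxy (by rw [h4, h5, hcb])
        rw [if_neg h5]; ring
      · rw [if_neg h4]; ring
  · have e1 : ∀ y z, (rt ε b c * form ε) y z = form ε b y * form ε c z + form ε c y * form ε b z := by
      intro y z
      rw [Matrix.mul_apply]
      exact sum_rt b c y fun w => form ε w z
    have e2 : ∀ y z, (form ε * (rt ε b c).transpose) y z =
        form ε b z * form ε y c + form ε c z * form ε y b := by
      intro y z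
      rw [Matrix.mul_apply]
      have := sum_rt (ε := ε) b c z fun w => form ε y w
      rw [← this]
      exact sum_congr rfl fun w _ => by rw [Matrix.transpose_apply]; ring
    ext y z
    rw [Matrix.add_apply, e1, e2, form_anti hε hc0 y, form_anti hε hb0 y, form_anti hε hb0 z,
      form_anti hε hc0 z, Matrix.zero_apply]
    ring
  · refine sum_eq_zero fun a _ => ?_
    simp only [rt, Matrix.of_apply]
    have k1 : form ε b ⟨i, a⟩ * (if (⟨i, a⟩ : Letter Λ) = c then (1 : ℂ) else 0) = 0 := by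
      split_ifs with h
      · rw [h, hfbc, zero_mul]
      · rw [mul_zero]
    have k2 : form ε c ⟨i, a⟩ * (if (⟨i, a⟩ : Letter Λ) = b then (1 : ℂ) else 0) = 0 := by
      split_ifs with h
      · rw [h, hfcb, zero_mul]
      · rw [mul_zero]
    rw [k1, k2, add_zero]

/-- the relations of the roots -/
lemma root_relL (hε : ∀ x : Letter Λ, ¬ Λ.orth x.1 = true → ε (dual x) = -ε x)
    (_hε0 : ∀ x, ε x ≠ 0) {κ : Type} [Fintype κ]
    [DecidableEq κ] {x : (κ → Letter Λ) → ℂ} (hx : ∀ X, InLD ε X → lieA X x = 0) {b c : Letter Λ}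
    (hb0 : ¬ Λ.orth b.1 = true)
    (hbc : (dual b).1 = c.1) (hne : c ≠ dual b) (w : κ → Letter Λ) :
    ∑ k, (JJ dual ε b (w k) * x (Function.update w k c) +
      JJ dual ε c (w k) * x (Function.update w k b)) = 0 := by
  have h1 := congrFun (hx _ (inL_rt hε hb0 hbc hne)) w
  rw [lieA_apply] at h1
  rw [Pi.zero_apply] at h1
  rw [← h1]
  exact sum_congr rfl fun k _ => (sum_rt b c (w k) fun y => x (Function.update w k y)).symm

/-- the relations of the rotations -/
lemma rot_relL (hε0 : ∀ x, ε x ≠ 0) {κ : Type} [Fintype κ]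
    [DecidableEq κ] {x : (κ → Letter Λ) → ℂ} (hx : ∀ X, InLD ε X → lieA X x = 0) {b c : Letter Λ}
    (hb : Λ.orth b.1 = true) (h1 : b.1 = c.1) (v : κ → Letter Λ) :
    ∑ k, (JJ dual ε b (v k) * x (Function.update v k c) -
      JJ dual ε c (v k) * x (Function.update v k b)) = 0 := by
  have hc : Λ.orth c.1 = true := by rw [← h1]; exact hb
  by_cases hbc : b = c
  · subst hbc
    exact sum_eq_zero fun k _ => sub_self _
  obtain ⟨w, hw⟩ := IsAlgClosed.exists_pow_nat_eq (ε b * ε c) (n := 2) (by norm_num)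
  rw [pow_two] at hw
  have hw0 : w ≠ 0 := by
    rintro rfl
    rw [zero_mul] at hw
    exact (mul_ne_zero (hε0 b) (hε0 c)) hw.symm
  have h2 := congrFun (hx _ (inL_kk (w := w) hε0 hbc hb hc h1)) v
  rw [lieA_apply, Pi.zero_apply] at h2
  have h3 : ∀ k, ∑ y, kk b c w ε (v k) y * x (Function.update v k y) =
      -(w / (ε b * ε c)) * (JJ dual ε b (v k) * x (Function.update v k c) -
      JJ dual ε c (v k) * x (Function.update v k b)) := by
    intro k
    have hb0 := hε0 b
    have hc0 := hε0 c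
    have e0 := kk_mul (w := w) (ε := ε) hbc (Matrix.of fun y _ => x (Function.update v k y)) (v k) (v k)
    rw [Matrix.mul_apply] at e0
    simp only [Matrix.of_apply] at e0
    rw [e0]
    unfold JJ
    rw [dual_of_orth hb, dual_of_orth hc]
    by_cases hvb : v k = b
    · rw [if_pos hvb, if_pos hvb, if_neg fun h => hbc (by rw [← hvb, h])]
      field_simp
      ring
    · rw [if_neg hvb, if_neg hvb]
      by_cases hvc : v k = c
      · rw [if_pos hvc, if_pos hvc]
        field_simp
        ring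
      · rw [if_neg hvc, if_neg hvc]
        ring
  rw [sum_congr rfl fun k _ => h3 k, ← mul_sum] at h2
  refine (mul_eq_zero.mp h2).resolve_left ?_
  exact neg_ne_zero.mpr (div_ne_zero hw0 (mul_ne_zero (hε0 b) (hε0 c)))

/-- **The first fundamental theorem.** -/
theorem fftL {κ : Type} [Fintype κ] [DecidableEq κ] (hε : ∀ x : Letter Λ, ¬ Λ.orth x.1 = true → ε (dual x) = -ε x)
    (hε0 : ∀ x, ε x ≠ 0) {x : (κ → Letter Λ) → ℂ} (hx : ∀ X, InLD ε X → lieA X x = 0) : x ∈ algT Λ ε κ := by
  classical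
  rw [← sum_part x]
  refine Submodule.sum_mem _ fun t _ => Submodule.sum_mem _ fun p _ => ?_
  by_cases h0 : part x t p = 0
  · rw [h0]; exact Submodule.zero_mem _
  obtain ⟨w0, hw0⟩ := Function.ne_iff.mp h0
  rw [Pi.zero_apply] at hw0
  have hpart : ∀ w, part x t p w ≠ 0 → ((fun k => (w k).1) = t ∧ pv w = p) ∧ x w ≠ 0 := by
    intro w hw
    unfold part at hw
    split_ifs at hw with h
    · exact ⟨h, hw⟩
    · exact absurd rfl hw
  have heq : ∀ w, part x t p w ≠ 0 → ∀ (i : I) (a b : Fin (Λ.dim i)),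
      net w ⟨i, a⟩ = net w ⟨i, b⟩ := fun w hw i a b => net_eqL hx (hpart w hw).2 i a b
  have hpar : ∀ w, part x t p w ≠ 0 → ∀ (i : I), Λ.orth i = true → ∀ (a b : Fin (Λ.dim i)),
      occ w ⟨i, a⟩ % 2 = occ w ⟨i, b⟩ % 2 :=
    fun w hw i hi a b => parity_eqL hε0 hx (hpart w hw).2 hi a b
  have hcore := core hε hε0
    (part_gl (fun b c hb hbc hne w => root_relL hε hε0 hx hb hbc hne w) t p)
    (part_so (fun b c hb hbc w => rot_relL hε0 hx hb hbc w) t p)
    (fun w hw k => congrFun (hpart w hw).1.1 k) heq hpar hw0 (fun w hw z hz => by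
      have h1 : pv w z = pv w0 z := by rw [(hpart w hw).1.2, (hpart w0 hw0).1.2]
      unfold pv at h1
      rw [if_pos hz, if_pos hz] at h1
      exact (ZMod.natCast_eq_natCast_iff' _ _ 2).mp h1)
  refine detSpan_le _ (fun j => ?_) hcore
  obtain ⟨i, j⟩ := j
  by_contra hcon
  rw [not_or, not_not] at hcon
  have hj : 0 < mult w0 i := (Nat.zero_le _).trans_lt j.2
  unfold mult at hj
  split_ifs at hj with h1 h2
  · exact hcon.2 h2
  · have h3 := heq w0 hw0 i ⟨0, h1⟩ (Fin.rev ⟨0, h1⟩)
    have h4 : (⟨i, Fin.rev ⟨0, h1⟩⟩ : Letter Λ) = dual ⟨i, ⟨0, h1⟩⟩ := by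
      refine letter_ext ?_ ?_
      · rw [dual_fst]
        exact hcon.1.symm
      · rw [dual_of_not h2]
        rfl
    rw [h4] at h3
    have h5 : net w0 (dual ⟨i, ⟨0, h1⟩⟩) = -net w0 ⟨i, ⟨0, h1⟩⟩ := net_dual _ _
    rw [h5] at h3
    omega
  · exact absurd hj (lt_irrefl _)


end Q149.HT
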