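import Pool.Agent.Q149.HT.Fft

/-!
# Project HT (helper207), HT1: generation of the killed tensors (helper149)
-/

set_option autoImplicit false

open Finset

namespace Q149.HT

open Q207.DB Q207.HT

variable {I : Type} [Fintype I] [DecidableEq I] {Λ : Labels I} {ε : Letter Λ → ℂ}

lemma gensL_of {K κ : Type} [Fintype K] {H : Set (Matrix K K ℂ)} {Δ : ℕ → Prop} {L : Type}
    [Fintype L] {s : L → ℕ} (e : (Σ l, Fin (s l)) ≃ κ)
    (u : ∀ l, (Fin (s l) → K) → ℂ) (h : ∀ l, Δ (s l) ∧ InvL H (u l)) :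
    prodT e u ∈ gensL H Δ κ := by
  set η := Fintype.equivFin L
  refine Submodule.subset_span ⟨Fintype.card L, fun j => s (η.symm j),
    (Equiv.sigmaCongrLeft (β := fun j => Fin (s j)) η.symm).trans e,
    fun j => u (η.symm j), fun j => h _, ?_⟩
  funext w
  unfold prodT
  exact Fintype.prod_equiv η _ _ fun j => by
    obtain ⟨j', rfl⟩ := η.symm.surjective j
    rw [Equiv.apply_symm_apply]
    rfl

lemma det_updateRow_eq {n : ℕ} (A : Matrix (Fin n) (Fin n) ℂ) (l : Fin n) (v : Fin n → ℂ) :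
    (A.updateRow l v).det = ∑ b, v b * A.adjugate b l := by
  rw [← Matrix.cramer_transpose_apply, Matrix.cramer_eq_adjugate_mulVec, Matrix.mulVec,
    dotProduct, ← Matrix.adjugate_transpose]
  exact sum_congr rfl fun b _ => by rw [Matrix.transpose_apply, mul_comm]

lemma det_invL {i : I} (hi : Λ.star i ≠ i ∨ Λ.orth i = true)
    {X : Matrix (Letter Λ) (Letter Λ) ℂ} (hX : InLD ε X) : lieA X (detOf (Λ := Λ) i) = 0 := by
  classical
  funext w
  rw [lieA_apply]
  set A : Matrix (Fin (Λ.dim i)) (Fin (Λ.dim i)) ℂ :=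
    Matrix.of fun a b => if w a = ⟨i, b⟩ then (1 : ℂ) else 0 with hA
  set M : Matrix (Fin (Λ.dim i)) (Fin (Λ.dim i)) ℂ :=
    Matrix.of fun a b => X ⟨i, a⟩ ⟨i, b⟩ with hM
  have h1 : ∀ (l : Fin (Λ.dim i)) (y : Letter Λ), detOf (Λ := Λ) i (Function.update w l y) =
      ∑ b, (if y = ⟨i, b⟩ then (1 : ℂ) else 0) * A.adjugate b l := by
    intro l y
    rw [← det_updateRow_eq]
    unfold detOf
    congr 1
    ext a b
    rw [Matrix.of_apply, Matrix.updateRow_apply]
    by_cases h : a = l
    · subst h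
      rw [Function.update_self, if_pos rfl]
    · rw [Function.update_of_ne h, if_neg h]
      rfl
  have h2 : ∀ l, ∑ y, X (w l) y * detOf (Λ := Λ) i (Function.update w l y) =
      ∑ b, X (w l) ⟨i, b⟩ * A.adjugate b l := by
    intro l
    simp only [h1, mul_sum]
    rw [sum_comm]
    refine sum_congr rfl fun b _ => ?_
    rw [sum_eq_single (⟨i, b⟩ : Letter Λ)]
    · rw [if_pos rfl, one_mul]
    · intro y _ hy
      rw [if_neg hy, zero_mul, mul_zero]
    · intro h
      exact absurd (mem_univ _) h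
  have h3 : ∀ l b, X (w l) ⟨i, b⟩ = (A * M) l b := by
    intro l b
    rw [Matrix.mul_apply]
    simp only [hA, hM, Matrix.of_apply, ite_mul, one_mul, zero_mul]
    by_cases h3 : (w l).1 = i
    · obtain ⟨c, hc⟩ := ex_letter h3
      rw [hc, sum_eq_single c]
      · rw [if_pos rfl]
      · intro c' _ hc'
        rw [if_neg]
        intro h4
        exact hc' (eq_of_heq (Sigma.mk.inj_iff.1 h4).2).symm
      · intro h4
        exact absurd (mem_univ _) h4
    · rw [hX.block _ _ (by simpa using h3)]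
      refine (sum_eq_zero fun c _ => ?_).symm
      rw [if_neg]
      intro h4
      exact h3 (by rw [h4])
  have h4 : ∑ l, ∑ b, X (w l) ⟨i, b⟩ * A.adjugate b l = (A * M * A.adjugate).trace := by
    unfold Matrix.trace
    refine sum_congr rfl fun l _ => ?_
    rw [Matrix.diag_apply, Matrix.mul_apply]
    exact sum_congr rfl fun b _ => by rw [h3]
  rw [sum_congr rfl fun l _ => h2 l, h4, Matrix.trace_mul_comm, ← Matrix.mul_assoc,
    Matrix.adjugate_mul, Matrix.smul_mul, Matrix.one_mul, Matrix.trace_smul]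
  have h5 : M.trace = 0 := hX.tr i hi
  rw [h5, smul_zero]
  rfl

lemma pair_invL (i : I) {X : Matrix (Letter Λ) (Letter Λ) ℂ} (hX : InLD ε X) :
    lieA X (fun w : Fin 2 → Letter Λ => pairOf ε i (w 0) (w 1)) = 0 := by
  classical
  funext w
  rw [lieA_apply, Fin.sum_univ_two]
  have h1 : ∀ x y : Letter Λ, pairOf ε i x y = if x.1 = i then form ε x y else 0 := fun x y => rfl
  have e0 : ∀ y : Letter Λ, pairOf ε i (Function.update w 0 y 0) (Function.update w 0 y 1) =
      pairOf ε i y (w 1) := by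
    intro y
    rw [Function.update_self, Function.update_of_ne (by decide)]
  have e1 : ∀ y : Letter Λ, pairOf ε i (Function.update w 1 y 0) (Function.update w 1 y 1) =
      pairOf ε i (w 0) y := by
    intro y
    rw [Function.update_self, Function.update_of_ne (by decide)]
  simp only [e0, e1]
  have h2 : ∀ y, X (w 0) y * pairOf ε i y (w 1) =
      if (w 0).1 = i then X (w 0) y * form ε y (w 1) else 0 := by
    intro y
    rw [h1]
    by_cases h3 : (w 0).1 = y.1
    · rw [h3]
      split_ifs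
      · rfl
      · rw [mul_zero]
    · rw [hX.block _ _ h3]
      simp
  rw [sum_congr rfl fun y _ => h2 y]
  simp only [h1, Pi.zero_apply]
  by_cases h4 : (w 0).1 = i
  · simp only [if_pos h4]
    have h5 := congrFun (congrFun hX.form (w 0)) (w 1)
    rw [Matrix.add_apply, Matrix.mul_apply, Matrix.mul_apply, Matrix.zero_apply] at h5
    rw [← h5]
    congr 1
    exact sum_congr rfl fun y _ => by rw [Matrix.transpose_apply, mul_comm]
  · simp only [if_neg h4, mul_zero, sum_const_zero, add_zero]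

/-- HT1 -/
theorem fft : S_Fft := by
  intro I _ _ Λ ε hε hε0 κ _ _ x hx
  have h1 := fftL hε hε0 (x := x) fun X hX => hx X hX
  refine (?_ : algT Λ ε κ ≤ _) h1
  unfold algT
  rw [Submodule.span_le]
  rintro y ⟨l, p, μ, ν, e, hμ, rfl⟩
  set s : Fin l ⊕ Fin p → ℕ := Sum.elim (fun j => Λ.dim (μ j)) fun _ => 2 with hs
  set e' : (Σ a : Fin l ⊕ Fin p, Fin (s a)) ≃ κ :=
    ((Equiv.sumSigmaDistrib (fun a => Fin (s a))).trans (Equiv.sumCongr (Equiv.refl _)
      (Equiv.sigmaEquivProd (Fin p) (Fin 2)))).trans e with he'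
  set u : ∀ a : Fin l ⊕ Fin p, (Fin (s a) → Letter Λ) → ℂ := fun a => match a with
    | Sum.inl j => detOf (μ j)
    | Sum.inr q => fun w => pairOf ε (ν q) (w (0 : Fin 2)) (w (1 : Fin 2)) with hu
  have h2 : prodOf ε μ ν e = prodT e' u := by
    funext w
    unfold prodOf prodT
    rw [Fintype.prod_sum_type]
    rfl
  rw [h2]
  refine gensL_of e' u fun a => ?_
  rcases a with j | q
  · exact ⟨Or.inr ⟨μ j, hμ j, rfl⟩, fun X hX => det_invL (hμ j) hX⟩
  · exact ⟨Or.inl rfl, fun X hX => pair_invL (ν q) hX⟩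

end Q149.HT
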